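import Pool.Agent.helper5.IH.Spec

set_option autoImplicit false

namespace Pool.Agent.IH
open Finset CT SYM

theorem MU2_cp {V : Type} [DecidableEq V] (t : V → Fin 3) (v : V) (k : Fin 3) (σ : Equiv.Perm V) :
    Cp (Function.update t v k) σ ↔
      ((∀ w, w ≠ v → (t w = 0 → σ w = w) ∧ (t w = 1 → σ w ≠ w)) ∧ (k = 0 → σ v = v) ∧
        (k = 1 → σ v ≠ v)) := by
  constructor
  · intro h
    refine ⟨?_, ?_⟩
    · intro w hw
      have := h w
      rwa [Function.update_of_ne hw] at this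
    · have := h v
      rwa [Function.update_self] at this
  · rintro ⟨h1, h2⟩ w
    by_cases hw : w = v
    · subst hw
      rw [Function.update_self]
      exact h2
    · rw [Function.update_of_ne hw]
      exact h1 w hw

theorem MU2 : MU2_stmt := by
  intro V _ _ H t v
  have h01 : (2 : Fin 3) ≠ 0 := by decide
  have h21 : (2 : Fin 3) ≠ 1 := by decide
  have h10 : (1 : Fin 3) ≠ 0 := by decide
  have hU : {σ : Equiv.Perm V | Mt H σ ∧ Cp (Function.update t v 2) σ} =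
      {σ : Equiv.Perm V | Mt H σ ∧ Cp (Function.update t v 0) σ} ∪
        {σ : Equiv.Perm V | Mt H σ ∧ Cp (Function.update t v 1) σ} := by
    ext σ
    constructor
    · rintro ⟨h1, h2⟩
      obtain ⟨h3, _⟩ := (MU2_cp t v 2 σ).1 h2
      by_cases h : σ v = v
      · left
        exact ⟨h1, (MU2_cp t v 0 σ).2 ⟨h3, fun _ => h, fun h' => absurd h' (by decide)⟩⟩
      · right
        exact ⟨h1, (MU2_cp t v 1 σ).2 ⟨h3, fun h' => absurd h' h10, fun _ => h⟩⟩
    · rintro (⟨h1, h2⟩ | ⟨h1, h2⟩)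
      · obtain ⟨h3, _⟩ := (MU2_cp t v 0 σ).1 h2
        exact ⟨h1, (MU2_cp t v 2 σ).2 ⟨h3, fun h' => absurd h' h01, fun h' => absurd h' h21⟩⟩
      · obtain ⟨h3, _⟩ := (MU2_cp t v 1 σ).1 h2
        exact ⟨h1, (MU2_cp t v 2 σ).2 ⟨h3, fun h' => absurd h' h01, fun h' => absurd h' h21⟩⟩
  have hD : Disjoint {σ : Equiv.Perm V | Mt H σ ∧ Cp (Function.update t v 0) σ}
      {σ : Equiv.Perm V | Mt H σ ∧ Cp (Function.update t v 1) σ} := by
    rw [Set.disjoint_left]
    rintro σ ⟨_, h1⟩ ⟨_, h2⟩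
    exact ((MU2_cp t v 1 σ).1 h2).2.2 rfl (((MU2_cp t v 0 σ).1 h1).2.1 rfl)
  have h := Set.ncard_union_eq hD (Set.toFinite _) (Set.toFinite _)
  rw [← hU] at h
  exact h

end Pool.Agent.IH
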