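import Pool.Agent.helper5.IH.Spec2

set_option autoImplicit false

namespace Pool.Agent.IH
open Finset CT SYM

theorem TP1 (hTPQ : TPQ_stmt) (hHAM1 : HAM1_stmt) : TP1_stmt := by
  intro V _ _ G b c hG hn hv hE hb
  obtain ⟨m, q, τ, S, N, _, hodd, _, hbn, hnS, hdis, hSN, hadj, _⟩ := hTPQ V G b c hG hn hv hE
  have hl : Nat.card {v // Shared G c v} = S.card + N.card := by
    rw [← Finset.card_union_of_disjoint hdis, ← Nat.card_eq_finsetCard]
    refine Nat.card_congr (Equiv.subtypeEquivRight ?_)
    intro v
    rw [Finset.mem_union]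
    exact (hSN v).symm
  have hS1 : 1 ≤ S.card := by omega
  have hSne : S.Nonempty := Finset.card_pos.1 hS1
  have hno : ¬ (N.card < S.card ∨ (N.card = S.card ∧ ∃ v, v ∉ S ∧ v ∉ N)) := by
    intro h
    have h0 := hHAM1 V (IG m q) S N hSne hdis hadj h
    rw [h0] at hodd
    exact absurd hodd (by decide)
  rw [hl]
  by_cases h1 : N.card = S.card
  · have hall : ∀ v, v ∈ S ∪ N := by
      intro v
      by_contra hv'
      rw [Finset.mem_union, not_or] at hv'
      exact hno (Or.inr ⟨h1, v, hv'.1, hv'.2⟩)
    have hV : Fintype.card V = S.card + N.card := by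
      rw [← Finset.card_union_of_disjoint hdis, ← Finset.card_univ]
      exact congrArg Finset.card (Finset.eq_univ_of_forall hall).symm
    by_cases h2 : b ≤ S.card
    · left
      omega
    · right
      omega
  · left
    have h2 : ¬ N.card < S.card := fun h => hno (Or.inl h)
    omega

end Pool.Agent.IH
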